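import Pool.Agent.Helper21.W4.St4

/-!
# Project W4 (MP_4a5405_co), module F1: numerical data, type 2, interior
-/

set_option autoImplicit false

namespace Pool.Agent.Helper19.W4

open Pool.Agent.Helper21.W4 Finset

private theorem nf_F1 (A W : ℕ) (hA : 1 ≤ A) :
    0 ≤ nf A W ∧ nf A W ≤ 1 ∧ 3 * nf A W ≤ nf A W * ((W : ℤ) + 2) := by
  unfold nf
  split_ifs with h
  · simp
  · refine ⟨by norm_num, le_rfl, ?_⟩
    have : 1 ≤ W := by omega
    push_cast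
    omega

private theorem ar3_F1 {w e a : ℕ} (h1 : 2 * w + e * e ≤ 2 * a + 3 * e) (h2 : e * e + e ≤ 2 * a)
    (he : 1 ≤ e) (hw : 4 ≤ w) : 3 ≤ a := by
  by_cases h3 : 3 ≤ e
  · nlinarith
  · have : e = 1 ∨ e = 2 := by omega
    rcases this with rfl | rfl <;> omega

private theorem ar2_F1 {w e a : ℕ} (h1 : 2 * w + e * e ≤ 2 * a + 3 * e) (h2 : e * e + e ≤ 2 * a)
    (he : 1 ≤ e) (hw : 3 ≤ w) : 2 ≤ a := by
  by_cases h3 : 2 ≤ e
  · nlinarith
  · have : e = 1 := by omega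
    subst this
    omega

theorem hF1 : StF1 := by
  intro _ hNnf hNstar hNzv hN2b x s hB hY hT hs
  obtain ⟨hZ, hV⟩ := hNzv x s hB hY
  obtain ⟨p1, p2, p3⟩ := nf_F1 x.A1 (W1 x) hB.A1
  obtain ⟨q1, q2, q3⟩ := nf_F1 x.A2 (W2 x) hB.A2
  obtain ⟨r1, r2, r3⟩ := nf_F1 x.A3 (W3 x) hB.A3
  obtain ⟨u1a, u1b⟩ := hT.u1
  obtain ⟨u2a, u2b⟩ := hT.u2
  obtain ⟨u3a, u3b⟩ := hT.u3
  have d12 := hB.d12
  have d13 := hB.d13
  have d21 := hB.d21
  have d23 := hB.d23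
  have d31 := hB.d31
  have d32 := hB.d32
  have k12 := hB.k12
  have k13 := hB.k13
  have k23 := hB.k23
  have hx12 := hB.x12
  have hx13 := hT.x13
  have hx23 := hT.x23
  have hL := hT.L
  have hsp := hT.sp
  have hW1 : x.u1 + x.d12 + x.d13 ≤ W1 x := by
    unfold W1
    omega
  have hW2 : x.u2 + x.d21 + x.d23 ≤ W2 x := by
    unfold W2
    omega
  have hW3 : x.u3 + x.d31 + x.d32 ≤ W3 x := by
    unfold W3
    omega
  have he12 : 1 ≤ x.e12 := hB.e12.2.2.1 (by omega)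
  have he13 : 1 ≤ x.e13 := hB.e13.2.2.1 (by omega)
  have he23 : 1 ≤ x.e23 := hB.e23.2.2.1 (by omega)
  have ha12 : 3 ≤ x.a12 := ar3_F1 hB.a12 hB.b12 he12 (by omega)
  have ha13 : 2 ≤ x.a13 := ar2_F1 hB.a13 hB.b13 he13 (by omega)
  have ha23 : 2 ≤ x.a23 := ar2_F1 hB.a23 hB.b23 he23 (by omega)
  have b13 : x.k13 * x.k13 + x.k13 ≤ 2 * x.a13 := by
    have h1 : x.k13 * x.k13 ≤ x.e13 * x.e13 := Nat.mul_le_mul k13.1 k13.1
    have h2 := hB.b13
    omega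
  have b23 : x.k23 * x.k23 + x.k23 ≤ 2 * x.a23 := by
    have h1 : x.k23 * x.k23 ≤ x.e23 * x.e23 := Nat.mul_le_mul k23.1 k23.1
    have h2 := hB.b23
    omega
  have hX0 : X0 x ≤ 8 + ((x.d12 : ℤ) + x.d21 + x.d13 + x.d31 + x.d23 + x.d32) +
      x.e12 + x.k13 + x.k23 := by
    unfold X0
    omega
  set g : ℤ := ((W1 x : ℤ) + W2 x + W3 x) - s with hg
  have hgd : ((x.d12 : ℤ) + x.d21 + x.d13 + x.d31 + x.d23 + x.d32) ≤ g := by
    rw [hg]
    omega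
  have hgood : Good (3 - g + X0 x) (g + 1 + x.a12 + x.a13 + x.a23 + x.bk) := by
    refine hN2b x.e12 x.k13 x.k23 x.a12 x.a13 x.a23 _ _ (by exact_mod_cast he12) (by positivity)
      (by positivity) (by exact_mod_cast ha12) (by exact_mod_cast ha13) (by exact_mod_cast ha23)
      (by exact_mod_cast hB.b12) (by exact_mod_cast b13) (by exact_mod_cast b23) ?_ ?_
    · linarith
    · omega
  refine hNstar x hB ?_
  refine hNnf _ _ (Zx x) (Vx x) (nf x.A1 (W1 x) + nf x.A2 (W2 x) + nf x.A3 (W3 x)) hgood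
    ?_ ?_ ?_ ?_ ?_
  · omega
  · linarith
  · linarith
  · linarith
  · linarith

end Pool.Agent.Helper19.W4
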