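import Pool.Agent.Helper21.W4.St5

/-!
# Project W4 (MP_4a5405_co), module Ts1: property (S1) from the tile property
-/

set_option autoImplicit false

namespace Pool.Agent.Helper19.W4

open Pool.Agent.Helper21.W4 Finset

/-- full corners -/
private def FC_Ts1 (D : ℕ → ℕ → ℕ → Prop) (p q r : ℕ) : Prop :=
  1 ≤ p ∧ 1 ≤ q ∧ 1 ≤ r ∧ ¬ D p q r ∧ D (p - 1) q r ∧ D p (q - 1) r ∧ D p q (r - 1)

private theorem val_Ts1 {G : Type} [AddCommGroup G] {D : ℕ → ℕ → ℕ → Prop} {g1 g2 g3 : G}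
    (h : TD D g1 g2 g3) {p q r : ℕ} (hc : FC_Ts1 D p q r) :
    p • g1 + q • g2 + r • g3 = 0 := by
  obtain ⟨hp, hq, hr, hn, h1, h2, h3⟩ := hc
  obtain ⟨p', q', r', hD, hv⟩ := h.nf p q r
  have hp' : p' = 0 := by
    by_contra h0
    obtain ⟨a, rfl⟩ : ∃ a, p = a + 1 := ⟨p - 1, by omega⟩
    obtain ⟨a', rfl⟩ : ∃ a', p' = a' + 1 := ⟨p' - 1, by omega⟩
    have h4 : D a' q' r' := h.down _ _ _ _ _ _ hD (by omega) le_rfl le_rfl
    rw [Nat.add_sub_cancel] at h1
    have h5 : a • g1 + q • g2 + r • g3 = a' • g1 + q' • g2 + r' • g3 := by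
      have h6 : (a • g1 + q • g2 + r • g3) + g1 = (a' • g1 + q' • g2 + r' • g3) + g1 := by
        calc (a • g1 + q • g2 + r • g3) + g1 = (a + 1) • g1 + q • g2 + r • g3 := by
              rw [succ_nsmul]; abel
          _ = (a' + 1) • g1 + q' • g2 + r' • g3 := hv.symm
          _ = _ := by rw [succ_nsmul]; abel
      exact add_right_cancel h6
    obtain ⟨e1, e2, e3⟩ := h.inj _ _ _ _ _ _ h1 h4 h5
    subst e1 e2 e3
    exact hn hD
  have hq' : q' = 0 := by
    by_contra h0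
    obtain ⟨a, rfl⟩ : ∃ a, q = a + 1 := ⟨q - 1, by omega⟩
    obtain ⟨a', rfl⟩ : ∃ a', q' = a' + 1 := ⟨q' - 1, by omega⟩
    have h4 : D p' a' r' := h.down _ _ _ _ _ _ hD le_rfl (by omega) le_rfl
    rw [Nat.add_sub_cancel] at h2
    have h5 : p • g1 + a • g2 + r • g3 = p' • g1 + a' • g2 + r' • g3 := by
      have h6 : (p • g1 + a • g2 + r • g3) + g2 = (p' • g1 + a' • g2 + r' • g3) + g2 := by
        calc (p • g1 + a • g2 + r • g3) + g2 = p • g1 + (a + 1) • g2 + r • g3 := by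
              rw [succ_nsmul]; abel
          _ = p' • g1 + (a' + 1) • g2 + r' • g3 := hv.symm
          _ = _ := by rw [succ_nsmul]; abel
      exact add_right_cancel h6
    obtain ⟨e1, e2, e3⟩ := h.inj _ _ _ _ _ _ h2 h4 h5
    subst e1 e2 e3
    exact hn hD
  have hr' : r' = 0 := by
    by_contra h0
    obtain ⟨a, rfl⟩ : ∃ a, r = a + 1 := ⟨r - 1, by omega⟩
    obtain ⟨a', rfl⟩ : ∃ a', r' = a' + 1 := ⟨r' - 1, by omega⟩
    have h4 : D p' q' a' := h.down _ _ _ _ _ _ hD le_rfl le_rfl (by omega)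
    rw [Nat.add_sub_cancel] at h3
    have h5 : p • g1 + q • g2 + a • g3 = p' • g1 + q' • g2 + a' • g3 := by
      have h6 : (p • g1 + q • g2 + a • g3) + g3 = (p' • g1 + q' • g2 + a' • g3) + g3 := by
        calc (p • g1 + q • g2 + a • g3) + g3 = p • g1 + q • g2 + (a + 1) • g3 := by
              rw [succ_nsmul]; abel
          _ = p' • g1 + q' • g2 + (a' + 1) • g3 := hv.symm
          _ = _ := by rw [succ_nsmul]; abel
      exact add_right_cancel h6
    obtain ⟨e1, e2, e3⟩ := h.inj _ _ _ _ _ _ h3 h4 h5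
    subst e1 e2 e3
    exact hn hD
  subst hp' hq' hr'
  rw [← hv]
  simp

private theorem split_Ts1 {G : Type} [AddCommGroup G] (g1 g2 g3 : G) {p q r d e f : ℕ}
    (h1 : d ≤ p) (h2 : e ≤ q) (h3 : f ≤ r) :
    ((p - d) • g1 + (q - e) • g2 + (r - f) • g3) + (d • g1 + e • g2 + f • g3) =
      p • g1 + q • g2 + r • g3 := by
  obtain ⟨p, rfl⟩ := Nat.exists_eq_add_of_le h1
  obtain ⟨q, rfl⟩ := Nat.exists_eq_add_of_le h2
  obtain ⟨r, rfl⟩ := Nat.exists_eq_add_of_le h3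
  rw [Nat.add_sub_cancel_left, Nat.add_sub_cancel_left, Nat.add_sub_cancel_left, add_nsmul,
    add_nsmul, add_nsmul]
  abel

private theorem uniq_Ts1 {G : Type} [AddCommGroup G] {D : ℕ → ℕ → ℕ → Prop} {g1 g2 g3 : G}
    (h : TD D g1 g2 g3) {p q r p' q' r' : ℕ} (hc : FC_Ts1 D p q r) (hc' : FC_Ts1 D p' q' r') :
    p = p' ∧ q = q' ∧ r = r' := by
  have hv := val_Ts1 h hc
  have hv' := val_Ts1 h hc'
  obtain ⟨hp, hq, hr, hn, h1, h2, h3⟩ := hc
  obtain ⟨hp', hq', hr', hn', h1', h2', h3'⟩ := hc'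
  have a1 := split_Ts1 g1 g2 g3 (min_le_left p p') (min_le_left q q') (min_le_left r r')
  have a2 := split_Ts1 g1 g2 g3 (min_le_right p p') (min_le_right q q') (min_le_right r r')
  rw [hv] at a1
  rw [hv'] at a2
  have a3 := add_right_cancel (a1.trans a2.symm)
  have b1 : D (p - min p p') (q - min q q') (r - min r r') :=
    h.down _ _ _ _ _ _ h1 (by omega) (by omega) (by omega)
  have b2 : D (p' - min p p') (q' - min q q') (r' - min r r') :=
    h.down _ _ _ _ _ _ h1' (by omega) (by omega) (by omega)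
  obtain ⟨e1, e2, e3⟩ := h.inj _ _ _ _ _ _ b1 b2 a3
  omega

private theorem ex_Ts1 {G : Type} [AddCommGroup G] {D : ℕ → ℕ → ℕ → Prop} {g1 g2 g3 : G}
    (h : TD D g1 g2 g3) : ∀ n p q r : ℕ, p + q + r = n → D p q 0 → D p 0 r → D 0 q r →
    ¬ D p q r → ∃ a b c, FC_Ts1 D a b c ∧ a ≤ p ∧ b ≤ q ∧ c ≤ r := by
  intro n
  induction n with
  | zero =>
    intro p q r hn h1 _ _ h4
    have : r = 0 := by omega
    subst this
    exact absurd h1 h4
  | succ n ih =>
    intro p q r hn h1 h2 h3 h4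
    have hp : 1 ≤ p := by
      by_contra h0
      have : p = 0 := by omega
      subst this
      exact h4 h3
    have hq : 1 ≤ q := by
      by_contra h0
      have : q = 0 := by omega
      subst this
      exact h4 h2
    have hr : 1 ≤ r := by
      by_contra h0
      have : r = 0 := by omega
      subst this
      exact h4 h1
    by_cases k1 : D (p - 1) q r
    · by_cases k2 : D p (q - 1) r
      · by_cases k3 : D p q (r - 1)
        · exact ⟨p, q, r, ⟨hp, hq, hr, h4, k1, k2, k3⟩, le_rfl, le_rfl, le_rfl⟩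
        · obtain ⟨a, b, c, hc, ha, hb, hcc⟩ := ih p q (r - 1) (by omega) h1
            (h.down _ _ _ _ _ _ h2 le_rfl le_rfl (by omega))
            (h.down _ _ _ _ _ _ h3 le_rfl le_rfl (by omega)) k3
          exact ⟨a, b, c, hc, ha, hb, by omega⟩
      · obtain ⟨a, b, c, hc, ha, hb, hcc⟩ := ih p (q - 1) r (by omega)
          (h.down _ _ _ _ _ _ h1 le_rfl (by omega) le_rfl) h2
          (h.down _ _ _ _ _ _ h3 le_rfl (by omega) le_rfl) k2
        exact ⟨a, b, c, hc, ha, by omega, hcc⟩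
    · obtain ⟨a, b, c, hc, ha, hb, hcc⟩ := ih (p - 1) q r (by omega)
        (h.down _ _ _ _ _ _ h1 (by omega) le_rfl le_rfl)
        (h.down _ _ _ _ _ _ h2 (by omega) le_rfl le_rfl) h3 k1
      exact ⟨a, b, c, hc, by omega, hb, hcc⟩

theorem hTs1 : StTs1 := by
  intro G _ D g1 g2 g3 h
  have hproj : ∀ p q r, D p q r → D p q 0 ∧ D p 0 r ∧ D 0 q r := fun p q r hD =>
    ⟨h.down _ _ _ _ _ _ hD le_rfl le_rfl (Nat.zero_le _),
      h.down _ _ _ _ _ _ hD le_rfl (Nat.zero_le _) le_rfl,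
      h.down _ _ _ _ _ _ hD (Nat.zero_le _) le_rfl le_rfl⟩
  by_cases hfc : ∃ c1 c2 c3, FC_Ts1 D c1 c2 c3
  · obtain ⟨c1, c2, c3, hc⟩ := hfc
    have hv := val_Ts1 h hc
    have hc0 := hc
    obtain ⟨hp, hq, hr, hn, h1, h2, h3⟩ := hc0
    refine Or.inl ⟨c1, c2, c3, hp, hq, hr, ?_, ?_, ?_, ?_, hv⟩
    · intro p q r
      constructor
      · intro hD
        obtain ⟨a1, a2, a3⟩ := hproj p q r hD
        refine ⟨a1, a2, a3, ?_⟩
        rintro ⟨b1, b2, b3⟩
        exact hn (h.down _ _ _ _ _ _ hD b1 b2 b3)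
      · rintro ⟨a1, a2, a3, hno⟩
        by_contra hD
        obtain ⟨a, b, c, hc', ha, hb, hcc⟩ := ex_Ts1 h _ p q r rfl a1 a2 a3 hD
        obtain ⟨e1, e2, e3⟩ := uniq_Ts1 h hc' hc
        exact hno ⟨by omega, by omega, by omega⟩
    · exact h.down _ _ _ _ _ _ h3 le_rfl le_rfl (Nat.zero_le _)
    · exact h.down _ _ _ _ _ _ h2 le_rfl (Nat.zero_le _) le_rfl
    · exact h.down _ _ _ _ _ _ h1 (Nat.zero_le _) le_rfl le_rfl
  · refine Or.inr fun p q r => ⟨hproj p q r, ?_⟩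
    rintro ⟨a1, a2, a3⟩
    by_contra hD
    obtain ⟨a, b, c, hc', _⟩ := ex_Ts1 h _ p q r rfl a1 a2 a3 hD
    exact hfc ⟨a, b, c, hc'⟩

end Pool.Agent.Helper19.W4
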